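import Pool.Agent.KS6_22.CU.Exc

/-!
# Embeddings of `C_p` of the split interval are coded by countable sets
-/

set_option autoImplicit false

namespace Pool.Agent.KS6_22.CU

open Set Topology TopologicalSpace

variable {L : Set ℝ}

section

variable {W : Type*} [TopologicalSpace W]

/-- the difference `T (ff r t) - T 0` -/
noncomputable def hh (T : Cp (Cut L) → Cp W) (r t : L) (w : W) : ℝ :=
  (T (ff r t)).1 w - (T (zero _)).1 w

theorem hh_continuous (T : Cp (Cut L) → Cp W) (r t : L) : Continuous (hh T r t) :=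
  (T (ff r t)).2.sub (T (zero _)).2

/-- the parameters `n`, `r` are good for `s` -/
def Data (T : Cp (Cut L) → Cp W) (n : ℕ) (r s : L) : Prop :=
  r < s ∧ ∃ F : Finset W,
    (∀ t : L, s ≤ t → ∃ w ∈ F, 1 / ((n : ℝ) + 1) ≤ |hh T r t w|) ∧
    (∀ t : L, r < t → t < s → ∀ w ∈ F, |hh T r t w| < 1 / ((n : ℝ) + 1) / 4)

theorem exists_data {T : Cp (Cut L) → Cp W} (hT : IsEmbedding T) (hQ : ∀ q : ℚ, (q : ℝ) ∈ L)
    (s : L) : ∃ (n : ℕ) (q : ℚ), Data T n ⟨q, hQ q⟩ s := by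
  classical
  -- the neighbourhood of `0`
  have h1 : {f : Cp (Cut L) | ∀ x ∈ ({pt s} : Finset (Cut L)), |f.1 x - (zero (Cut L)).1 x| < 1} ∈
      𝓝 (zero (Cut L)) := Cp.mem_nhds _ _ one_pos
  rw [hT.nhds_eq_comap, Filter.mem_comap] at h1
  obtain ⟨N, hN, hNs⟩ := h1
  obtain ⟨F, ε, hε, hF⟩ := Cp.exists_of_mem_nhds hN
  obtain ⟨n, hn⟩ := exists_nat_one_div_lt hε
  have hpos : (0 : ℝ) < 1 / ((n : ℝ) + 1) / 4 := by positivity
  have h2 : T ⁻¹' {g : Cp W | ∀ w ∈ F, |g.1 w - (T (zero _)).1 w| < 1 / ((n : ℝ) + 1) / 4} ∈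
      𝓝 (zero (Cut L)) :=
    hT.continuous.continuousAt (Cp.mem_nhds _ _ hpos)
  obtain ⟨K, δ, hδ, hK⟩ := Cp.exists_of_mem_nhds h2
  -- the rational number
  have h3 : ∀ x : Cut L, ∃ q : ℚ, (q : ℝ) < s ∧ ∀ r : L, (q : ℝ) ≤ r → ∀ t : L, t < s →
      (ff r t).1 x = 0 := by
    intro x
    by_cases hx : ∃ t0 : L, t0 < s ∧ x.1 t0 = true
    · obtain ⟨t0, ht0, hxt0⟩ := hx
      obtain ⟨q, hq1, hq2⟩ := exists_rat_btwn (show (t0 : ℝ) < s from ht0)
      refine ⟨q, hq2, fun r hr t _ => ?_⟩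
      have h4 : x.1 r = true := by
        have h5 := x.2 (show t0 ≤ r from Subtype.coe_le_coe.1 (hq1.le.trans hr))
        rw [hxt0] at h5
        exact Bool.eq_true_of_true_le h5
      rw [ff_apply, h4]
      simp
    · push Not at hx
      obtain ⟨q, hq⟩ := exists_rat_lt (s : ℝ)
      refine ⟨q, hq, fun r _ t ht => ?_⟩
      rw [ff_apply, if_neg]
      rintro ⟨h4, _⟩
      exact hx t ht h4
  choose Q hQ1 hQ2 using h3
  have h4 : ∃ q : ℚ, (q : ℝ) < s ∧ ∀ x ∈ K, Q x ≤ q := by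
    rcases K.eq_empty_or_nonempty with h | h
    · obtain ⟨q, hq⟩ := exists_rat_lt (s : ℝ)
      exact ⟨q, hq, by simp [h]⟩
    · obtain ⟨x, _, hx⟩ := K.exists_max_image Q h
      exact ⟨Q x, hQ1 x, hx⟩
  obtain ⟨q, hq1, hq2⟩ := h4
  refine ⟨n, q, Subtype.coe_lt_coe.1 hq1, F, fun t ht => ?_, fun t _ ht w hw => ?_⟩
  · by_contra hcon
    push Not at hcon
    have h5 : T (ff ⟨q, hQ q⟩ t) ∈ N := hF _ fun w hw => (hcon w hw).trans hn
    have h6 := hNs h5 (pt s) (Finset.mem_singleton_self _)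
    have h7 : (ff ⟨q, hQ q⟩ t).1 (pt s) = 1 := by
      rw [ff_apply, pt_apply, pt_apply, if_pos]
      refine ⟨by simpa using ht, ?_⟩
      rw [decide_eq_false_iff_not, not_le]
      exact Subtype.coe_lt_coe.1 hq1
    rw [h7] at h6
    simp [zero] at h6
  · have h5 : ff ⟨q, hQ q⟩ t ∈ T ⁻¹' {g : Cp W | ∀ w ∈ F,
        |g.1 w - (T (zero _)).1 w| < 1 / ((n : ℝ) + 1) / 4} := by
      refine hK _ fun x hx => ?_
      have h6 : (ff ⟨q, hQ q⟩ t).1 x = 0 :=
        hQ2 x ⟨q, hQ q⟩ (show (Q x : ℝ) ≤ (q : ℝ) from Rat.cast_le.2 (hq2 x hx)) t ht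
      rw [h6]
      simpa [zero] using hδ
    exact h5 w hw

end

/-! ### Codes -/

section

variable {ι : Type*} {W : Type*}

/-- the union of finitely many members of the base -/
def un (B : ι → Set W) (A : Finset ι) : Set W := ⋃ i ∈ A, B i

theorem exists_un [TopologicalSpace W] [CompactSpace W] {B : ι → Set W}
    (hB : IsTopologicalBasis (range B)) {h : W → ℝ} (hc : Continuous h) {a b : ℝ} (hab : a < b) :
    ∃ A : Finset ι, (∀ w, |h w| ≤ a → w ∈ un B A) ∧ ∀ w ∈ un B A, |h w| < b := by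
  classical
  have hcl : IsClosed {w | |h w| ≤ a} := isClosed_le hc.abs continuous_const
  have hop : IsOpen {w | |h w| < b} := isOpen_lt hc.abs continuous_const
  have h1 : ∀ w, ∃ i, |h w| ≤ a → w ∈ B i ∧ B i ⊆ {w | |h w| < b} := by
    intro w
    by_cases hw : |h w| ≤ a
    · obtain ⟨U, ⟨i, rfl⟩, hwU, hU⟩ := hB.exists_subset_of_mem_open
        (show w ∈ {w | |h w| < b} from hw.trans_lt hab) hop
      exact ⟨i, fun _ => ⟨hwU, hU⟩⟩
    · obtain ⟨U, ⟨i, rfl⟩, _, _⟩ := hB.exists_subset_of_mem_open (mem_univ w) isOpen_univ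
      exact ⟨i, fun h => absurd h hw⟩
  choose i hi using h1
  obtain ⟨t, ht⟩ := hcl.isCompact.elim_nhds_subcover' (fun w _ => B (i w)) fun w hw =>
    (hB.isOpen ⟨i w, rfl⟩).mem_nhds (hi w hw).1
  refine ⟨t.image fun w => i w.1, fun w hw => ?_, fun w hw => ?_⟩
  · obtain ⟨v, hv, hwv⟩ := mem_iUnion₂.1 (ht hw)
    exact mem_iUnion₂.2 ⟨i v.1, Finset.mem_image_of_mem _ hv, hwv⟩
  · obtain ⟨j, hj, hwj⟩ := mem_iUnion₂.1 hw
    obtain ⟨v, _, rfl⟩ := Finset.mem_image.1 hj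
    exact (hi v.1 v.2).2 hwj

/-- A code: a sequence of real numbers and two sequences of finite subsets of the index set of the
base. -/
structure Code (ι : Type*) where
  /-- the reals -/
  q : ℕ → ℝ
  /-- the first sets -/
  U : ℕ → Finset ι
  /-- the second sets -/
  V : ℕ → Finset ι

/-- the requirement on the finite set with index `j` -/
def Req (B : ι → Set W) (c : Code ι) (j : ℕ) (F : Finset W) : Prop :=
  ∀ i, (c.q i < c.q j → ∀ w ∈ F, w ∈ un B (c.U i)) ∧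
    (c.q j ≤ c.q i → ∃ w ∈ F, w ∉ un B (c.V i))

open Classical in
/-- a choice of a finite set of points of `W` -/
noncomputable def yy (B : ι → Set W) (c : Code ι) (j : ℕ) : Finset W :=
  if h : ∃ F, Req B c j F then h.choose else ∅

theorem yy_spec {B : ι → Set W} {c : Code ι} {j : ℕ} (h : ∃ F, Req B c j F) :
    Req B c j (yy B c j) := by
  rw [yy, dif_pos h]
  exact h.choose_spec

/-- the reals `q j` such that the points given by `j` are not all in the set with code `σ` -/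
def lo (B : ι → Set W) (c : Code ι) (σ : Finset ι) : Set ℝ :=
  {x | ∃ j, c.q j = x ∧ ∃ w ∈ yy B c j, w ∉ un B σ}

/-- the reals `q j` such that the points given by `j` are all in the set with code `σ` -/
def hi (B : ι → Set W) (c : Code ι) (σ : Finset ι) : Set ℝ :=
  {x | ∃ j, c.q j = x ∧ ∀ w ∈ yy B c j, w ∈ un B σ}

/-- the reals decoded from `c` and `σ` -/
noncomputable def dec (B : ι → Set W) (c : Code ι) (p : Finset ι × Bool) : ℝ :=
  if p.2 then sSup (lo B c p.1) else sInf (hi B c p.1)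

theorem mem_range_dec {B : ι → Set W} {c : Code ι} {σ : Finset ι} {t : ℝ}
    (ht : t ∈ closure (range c.q))
    (h1 : ∀ j, t < c.q j → ∀ w ∈ yy B c j, w ∈ un B σ)
    (h2 : ∀ j, c.q j < t → ∃ w ∈ yy B c j, w ∉ un B σ) : t ∈ range (dec B c) := by
  have hr : range c.q = lo B c σ ∪ hi B c σ := by
    ext x
    constructor
    · rintro ⟨j, rfl⟩
      by_cases h : ∀ w ∈ yy B c j, w ∈ un B σ
      · exact Or.inr ⟨j, rfl, h⟩
      · push Not at h
        exact Or.inl ⟨j, rfl, h⟩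
    · rintro (⟨j, rfl, _⟩ | ⟨j, rfl, _⟩) <;> exact ⟨j, rfl⟩
  rw [hr, closure_union] at ht
  rcases ht with ht | ht
  · refine ⟨(σ, true), ?_⟩
    have hub : t ∈ upperBounds (lo B c σ) := by
      rintro x ⟨j, rfl, w, hw, hwσ⟩
      by_contra hlt
      exact hwσ (h1 j (not_le.1 hlt) w hw)
    have hlub := isLUB_of_mem_closure hub ht
    have hne : (lo B c σ).Nonempty := closure_nonempty_iff.1 ⟨t, ht⟩
    simp only [dec, if_true]
    exact hlub.csSup_eq hne
  · refine ⟨(σ, false), ?_⟩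
    have hlb : t ∈ lowerBounds (hi B c σ) := by
      rintro x ⟨j, rfl, hj⟩
      by_contra hlt
      obtain ⟨w, hw, hwσ⟩ := h2 j (not_le.1 hlt)
      exact hwσ (hj w hw)
    have hglb := isGLB_of_mem_closure hlb ht
    have hne : (hi B c σ).Nonempty := closure_nonempty_iff.1 ⟨t, ht⟩
    simp only [dec, Bool.false_eq_true, if_false]
    exact hglb.csInf_eq hne

end

/-! ### The main lemma -/

theorem exists_code {ι : Type*} {W : Type*} [TopologicalSpace W] [CompactSpace W]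
    {B : ι → Set W} (hB : IsTopologicalBasis (range B)) {T : Cp (Cut L) → Cp W}
    (hT : Continuous T) (n : ℕ) (r : L) :
    ∃ c : Code ι, {t : L | Data T n r t ∧ (t : ℝ) ∉ range (dec B c)}.Countable := by
  classical
  rcases Set.eq_empty_or_nonempty {t : L | Data T n r t} with hemp | hne
  · refine ⟨⟨fun _ => 0, fun _ => ∅, fun _ => ∅⟩, ?_⟩
    have : {t : L | Data T n r t ∧ (t : ℝ) ∉ range (dec B ⟨fun _ => 0, fun _ => ∅, fun _ => ∅⟩)} =
        ∅ := by
      rw [Set.eq_empty_iff_forall_notMem] at hemp ⊢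
      exact fun t ht => hemp t ht.1
    rw [this]
    exact countable_empty
  set S : Set L := {t : L | Data T n r t} with hS
  set ε : ℝ := 1 / ((n : ℝ) + 1) with hε
  have hεpos : 0 < ε := by positivity
  -- the dense sequence
  have : Nonempty S := hne.to_subtype
  obtain ⟨u, hu⟩ := exists_dense_seq S
  let q : ℕ → L := fun i => (u i).1
  have hqS : ∀ i, q i ∈ S := fun i => (u i).2
  have hqd : ∀ t ∈ S, (t : ℝ) ∈ closure (range fun i => (q i : ℝ)) := by
    intro t ht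
    have h1 : (⟨t, ht⟩ : S) ∈ closure (range u) := hu _
    have h2 : Continuous fun s : S => ((s : L) : ℝ) :=
      continuous_subtype_val.comp continuous_subtype_val
    have h3 := image_closure_subset_closure_image h2 (mem_image_of_mem _ h1)
    rwa [← range_comp] at h3
  -- the codes
  have hU : ∀ i, ∃ A : Finset ι, (∀ w, |hh T r (q i) w| ≤ ε / 4 → w ∈ un B A) ∧
      ∀ w ∈ un B A, |hh T r (q i) w| < ε / 3 := fun i =>
    exists_un hB (hh_continuous T r (q i)) (by linarith)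
  have hV : ∀ i, ∃ A : Finset ι, (∀ w, |hh T r (q i) w| ≤ 3 * ε / 4 → w ∈ un B A) ∧
      ∀ w ∈ un B A, |hh T r (q i) w| < ε := fun i =>
    exists_un hB (hh_continuous T r (q i)) (by linarith)
  choose U hU1 hU2 using hU
  choose V hV1 hV2 using hV
  let c : Code ι := ⟨fun i => (q i : ℝ), U, V⟩
  refine ⟨c, ?_⟩
  have hreq : ∀ j, Req B c j (yy B c j) := by
    intro j
    apply yy_spec
    obtain ⟨hrj, F, hF1, hF2⟩ := hqS j
    refine ⟨F, fun i => ⟨fun hlt w hw => hU1 i w ?_, fun hle => ?_⟩⟩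
    · exact (hF2 (q i) (hqS i).1 (Subtype.coe_lt_coe.1 hlt) w hw).le
    · obtain ⟨w, hw, hwε⟩ := hF1 (q i) (Subtype.coe_le_coe.1 hle)
      exact ⟨w, hw, fun hwV => absurd (hV2 i w hwV) (not_lt.2 hwε)⟩
  -- the exceptional sets
  let φ : (j : ℕ) → Cp (Cut L) → (yy B c j → ℝ) := fun j f w => (T f).1 w
  have hφ : ∀ j, Continuous (φ j) := fun j =>
    continuous_pi fun w => (Cp.continuous_eval (w : W)).comp hT
  have hexc := fun j => exceptional_countable (hφ j) r q (by positivity : 0 < ε / 12)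
  refine (countable_iUnion hexc).mono ?_
  rintro t ⟨htS, htn⟩
  by_contra hcon
  apply htn
  -- the good `t`
  have hgood : ∀ j, ∀ O : Set ℝ, IsOpen O → (t : ℝ) ∈ O → ∃ i, (q i : ℝ) ∈ O ∧
      ∀ w ∈ yy B c j, |hh T r (q i) w - hh T r t w| < ε / 12 := by
    intro j O hO htO
    by_contra hcon'
    apply hcon
    refine mem_iUnion.2 ⟨j, hqd t htS, O, hO, htO, fun i hi => ?_⟩
    by_contra hlt
    rw [not_le] at hlt
    apply hcon'
    refine ⟨i, hi, fun w hw => ?_⟩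
    have h1 := (dist_pi_lt_iff (by positivity)).1 hlt ⟨w, hw⟩
    rw [Real.dist_eq] at h1
    have h2 : hh T r (q i) w - hh T r t w = (T (ff r (q i))).1 w - (T (ff r t)).1 w := by
      simp only [hh]
      ring
    rw [h2]
    exact h1
  obtain ⟨σ, hσ1, hσ2⟩ := exists_un hB (hh_continuous T r t)
    (show 5 * ε / 12 < 7 * ε / 12 by linarith)
  refine mem_range_dec (σ := σ) (hqd t htS) (fun j hj w hw => hσ1 w ?_) (fun j hj => ?_)
  · obtain ⟨i, hi, hi'⟩ := hgood j (Iio (q j : ℝ)) isOpen_Iio hj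
    have h1 : |hh T r (q i) w| < ε / 3 := hU2 i w ((hreq j i).1 hi w hw)
    have h2 := hi' w hw
    have h3 : |hh T r t w| ≤ |hh T r (q i) w| + |hh T r (q i) w - hh T r t w| := by
      have := abs_sub_abs_le_abs_sub (hh T r t w) (hh T r (q i) w)
      rw [abs_sub_comm] at this
      linarith
    linarith
  · obtain ⟨i, hi, hi'⟩ := hgood j (Ioi (q j : ℝ)) isOpen_Ioi hj
    obtain ⟨w, hw, hwV⟩ := (hreq j i).2 (le_of_lt hi)
    refine ⟨w, hw, fun hwσ => ?_⟩
    have h1 : 3 * ε / 4 < |hh T r (q i) w| := by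
      by_contra hle
      exact hwV (hV1 i w (not_lt.1 hle))
    have h2 := hi' w hw
    have h3 := hσ2 w hwσ
    have h4 := abs_sub_abs_le_abs_sub (hh T r (q i) w) (hh T r t w)
    linarith

/-- the big codes: countably many codes and a sequence of reals -/
def BigCode (ι : Type*) := (ℕ → Code ι) × (ℕ → ℝ)

/-- the reals decoded from a big code -/
noncomputable def decode {ι W : Type*} (B : ι → Set W) (C : BigCode ι) :
    (ℕ × (Finset ι × Bool)) ⊕ ℕ → ℝ
  | Sum.inl x => dec B (C.1 x.1) x.2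
  | Sum.inr i => C.2 i

/-- If `C_p` of the space of cuts of `L` embeds in `C_p W`, then `L` is covered by the reals decoded
from one code. -/
theorem exists_bigCode {ι : Type*} {W : Type*} [TopologicalSpace W] [CompactSpace W]
    {B : ι → Set W} (hB : IsTopologicalBasis (range B)) (hQ : ∀ q : ℚ, (q : ℝ) ∈ L)
    {T : Cp (Cut L) → Cp W} (hT : IsEmbedding T) :
    ∃ C : BigCode ι, L ⊆ range (decode B C) := by
  classical
  have h1 : ∀ p : ℕ × ℚ, ∃ c : Code ι,
      {t : L | Data T p.1 ⟨p.2, hQ p.2⟩ t ∧ (t : ℝ) ∉ range (dec B c)}.Countable :=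
    fun p => exists_code hB hT.continuous _ _
  choose c hc using h1
  obtain ⟨e, he⟩ := exists_surjective_nat (ℕ × ℚ)
  have h2 : (⋃ p : ℕ × ℚ, {t : L | Data T p.1 ⟨p.2, hQ p.2⟩ t ∧
      (t : ℝ) ∉ range (dec B (c p))}).Countable := countable_iUnion hc
  have h3 : ∃ g : ℕ → ℝ, ∀ t ∈ (⋃ p : ℕ × ℚ, {t : L | Data T p.1 ⟨p.2, hQ p.2⟩ t ∧
      (t : ℝ) ∉ range (dec B (c p))}), (t : ℝ) ∈ range g := by
    rcases Set.eq_empty_or_nonempty (⋃ p : ℕ × ℚ, {t : L | Data T p.1 ⟨p.2, hQ p.2⟩ t ∧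
      (t : ℝ) ∉ range (dec B (c p))}) with h | h
    · exact ⟨fun _ => 0, fun t ht => by rw [h] at ht; exact absurd ht (notMem_empty _)⟩
    · obtain ⟨g, hg⟩ := h2.exists_eq_range h
      refine ⟨fun i => (g i : ℝ), fun t ht => ?_⟩
      rw [hg] at ht
      obtain ⟨i, rfl⟩ := ht
      exact ⟨i, rfl⟩
  obtain ⟨g, hg⟩ := h3
  refine ⟨(fun k => c (e k), g), fun x hx => ?_⟩
  obtain ⟨n, q, hd⟩ := exists_data hT hQ ⟨x, hx⟩
  by_cases h4 : x ∈ range (dec B (c (n, q)))
  · obtain ⟨k, hk⟩ := he (n, q)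
    obtain ⟨y, hy⟩ := h4
    refine ⟨Sum.inl (k, y), ?_⟩
    show dec B (c (e k)) y = x
    rw [hk, hy]
  · obtain ⟨i, hi⟩ := hg ⟨x, hx⟩ (mem_iUnion.2 ⟨(n, q), hd, h4⟩)
    exact ⟨Sum.inr i, hi⟩

end Pool.Agent.KS6_22.CU
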