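import Pool.Agent.KS6_22.CU.Basic

/-!
# Continuous functions on `C_p` of the split interval: continuity off a countable set
-/

set_option autoImplicit false

namespace Pool.Agent.KS6_22.CU

open Set Topology TopologicalSpace

variable {L : Set ℝ}

theorem Cp.exists_finset {X : Type*} [TopologicalSpace X] {E : Type*} [PseudoMetricSpace E]
    {φ : Cp X → E} (hφ : Continuous φ) (f : Cp X) {ε : ℝ} (hε : 0 < ε) :
    ∃ K : Finset X, ∀ g : Cp X, (∀ x ∈ K, g.1 x = f.1 x) → dist (φ g) (φ f) < ε := by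
  have h1 : φ ⁻¹' Metric.ball (φ f) ε ∈ 𝓝 f :=
    hφ.continuousAt (Metric.ball_mem_nhds _ hε)
  obtain ⟨K, δ, hδ, hK⟩ := Cp.exists_of_mem_nhds h1
  exact ⟨K, fun g hg => hK g fun x hx => by rw [hg x hx, sub_self, abs_zero]; exact hδ⟩

/-- interpolation at a finite set -/
theorem exists_interp {X : Type*} [TopologicalSpace X] [CompactSpace X] [T2Space X]
    (K : Finset X) (v : X → ℝ) : ∃ f : Cp X, ∀ x ∈ K, f.1 x = v x := by
  classical
  have hcl : IsClosed (K : Set X) := K.finite_toSet.isClosed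
  have hf : Finite (K : Set X) := K.finite_toSet
  have hd : DiscreteTopology (K : Set X) := inferInstance
  let g : C((K : Set X), ℝ) := ⟨fun x => v x.1, continuous_of_discreteTopology⟩
  obtain ⟨G, hG⟩ := ContinuousMap.exists_restrict_eq hcl g
  refine ⟨⟨G, G.continuous⟩, fun x hx => ?_⟩
  have := congrArg (fun k : C((K : Set X), ℝ) => k ⟨x, hx⟩) hG
  exact this

theorem exceptional_countable {E : Type*} [PseudoMetricSpace E] {φ : Cp (Cut L) → E}
    (hφ : Continuous φ) (r : L) (q : ℕ → L) {ε : ℝ} (hε : 0 < ε) :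
    {t : L | (t : ℝ) ∈ closure (range fun i => (q i : ℝ)) ∧ ∃ O : Set ℝ, IsOpen O ∧ (t : ℝ) ∈ O ∧
      ∀ i, (q i : ℝ) ∈ O → ε ≤ dist (φ (ff r (q i))) (φ (ff r t))}.Countable := by
  classical
  set A : Set L := {t : L | (t : ℝ) ∈ closure (range fun i => (q i : ℝ)) ∧
    ∃ O : Set ℝ, IsOpen O ∧ (t : ℝ) ∈ O ∧
      ∀ i, (q i : ℝ) ∈ O → ε ≤ dist (φ (ff r (q i))) (φ (ff r t))} with hA
  -- the finite sets
  have hK : ∀ t : L, ∃ K : Finset (Cut L), ∀ g : Cp (Cut L),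
      (∀ x ∈ K, g.1 x = (ff r t).1 x) → dist (φ g) (φ (ff r t)) < ε / 2 :=
    fun t => Cp.exists_finset hφ _ (half_pos hε)
  choose K hK using hK
  have hn : ∀ t ∈ A, ∃ n : ℕ, (∀ i, |(q i : ℝ) - t| < 1 / ((n : ℝ) + 1) →
        ε ≤ dist (φ (ff r (q i))) (φ (ff r t))) ∧
      ∀ z ∈ K t, ¬ Jump z t → ∀ u : L, |(u : ℝ) - t| < 1 / ((n : ℝ) + 1) → z.1 u = z.1 t := by
    rintro t ⟨_, O, hO, htO, hO'⟩
    obtain ⟨δ, hδ, hδO⟩ := Metric.isOpen_iff.1 hO t htO
    have h1 : ∀ z : Cut L, ∃ δ' > 0, ¬ Jump z t → ∀ u : L, |(u : ℝ) - t| < δ' →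
        z.1 u = z.1 t := by
      intro z
      by_cases hz : Jump z t
      · exact ⟨1, one_pos, fun h => absurd hz h⟩
      · simp only [Jump, not_forall, not_exists, not_and, not_not] at hz
        obtain ⟨δ', hδ', h⟩ := hz
        exact ⟨δ', hδ', fun _ u hu => h u hu⟩
    choose δ' hδ' hδ'' using h1
    have h2 : ∃ η > 0, ∀ z ∈ K t, η ≤ δ' z := by
      rcases (K t).eq_empty_or_nonempty with h | h
      · exact ⟨1, one_pos, by simp [h]⟩
      · obtain ⟨z, _, hz⟩ := (K t).exists_min_image δ' h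
        exact ⟨δ' z, hδ' z, hz⟩
    obtain ⟨η, hη, hη'⟩ := h2
    obtain ⟨n, hn⟩ := exists_nat_one_div_lt (lt_min hδ hη)
    refine ⟨n, fun i hi => hO' i (hδO ?_), fun z hz hj u hu => hδ'' z hj u ?_⟩
    · rw [Metric.mem_ball, Real.dist_eq]
      exact hi.trans (hn.trans_le (min_le_left _ _))
    · exact hu.trans ((hn.trans_le (min_le_right _ _)).trans_le (hη' z hz))
  choose! n hn1 hn2 using hn
  -- the pieces
  have hcov : A ⊆ ⋃ (m : ℕ) (j : ℤ), {t ∈ A | n t = m ∧ ⌊2 * ((m : ℝ) + 1) * t⌋ = j} := by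
    intro t ht
    exact mem_iUnion.2 ⟨n t, mem_iUnion.2 ⟨_, ht, rfl, rfl⟩⟩
  refine (countable_iUnion fun m => countable_iUnion fun j => ?_).mono hcov
  rcases Set.eq_empty_or_nonempty {t ∈ A | n t = m ∧ ⌊2 * ((m : ℝ) + 1) * t⌋ = j} with h | h
  · rw [h]; exact countable_empty
  obtain ⟨t0, ht0, hnt0, hjt0⟩ := h
  have hm : (0 : ℝ) < (m : ℝ) + 1 := by positivity
  obtain ⟨y, hy, hty⟩ := Metric.mem_closure_iff.1 ht0.1 (1 / (2 * ((m : ℝ) + 1))) (by positivity)
  obtain ⟨i, rfl⟩ := hy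
  have hclose : ∀ t ∈ {t ∈ A | n t = m ∧ ⌊2 * ((m : ℝ) + 1) * t⌋ = j},
      |(q i : ℝ) - t| < 1 / ((m : ℝ) + 1) := by
    rintro t ⟨_, _, hjt⟩
    have h1 : |2 * ((m : ℝ) + 1) * t - 2 * ((m : ℝ) + 1) * t0| < 1 :=
      Int.abs_sub_lt_one_of_floor_eq_floor (hjt.trans hjt0.symm)
    rw [← mul_sub, abs_mul, abs_of_pos (by positivity : (0 : ℝ) < 2 * ((m : ℝ) + 1))] at h1
    have h2 : |(t : ℝ) - t0| < 1 / (2 * ((m : ℝ) + 1)) := by
      rw [lt_div_iff₀ (by positivity)]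
      linarith
    rw [Real.dist_eq] at hty
    have h3 : 1 / (2 * ((m : ℝ) + 1)) + 1 / (2 * ((m : ℝ) + 1)) = 1 / ((m : ℝ) + 1) := by
      field_simp
      norm_num
    have h4 : |(q i : ℝ) - t| ≤ |(t0 : ℝ) - q i| + |(t : ℝ) - t0| := by
      rw [abs_sub_comm (t0 : ℝ), abs_sub_comm (t : ℝ)]
      exact abs_sub_le _ _ _
    linarith
  have hsub : {t ∈ A | n t = m ∧ ⌊2 * ((m : ℝ) + 1) * t⌋ = j} ⊆
      ⋃ z ∈ (K (q i) : Set (Cut L)), {t : L | Jump z t} := by
    rintro t ht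
    by_contra hcon
    simp only [mem_iUnion, mem_ofPred_eq, not_exists, Finset.mem_coe] at hcon
    have hclt := hclose t ht
    obtain ⟨htA, hnt, _⟩ := ht
    rw [← hnt] at hclt
    have h1 := hn1 t htA i hclt
    -- the two functions agree on the intersection
    obtain ⟨g, hg⟩ := exists_interp (K t ∪ K (q i))
      (fun x => if x ∈ K t then (ff r t).1 x else (ff r (q i)).1 x)
    have h2 : dist (φ g) (φ (ff r t)) < ε / 2 := hK t g fun x hx => by
      rw [hg x (Finset.mem_union_left _ hx), if_pos hx]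
    have h3 : dist (φ g) (φ (ff r (q i))) < ε / 2 := hK (q i) g fun x hx => by
      rw [hg x (Finset.mem_union_right _ hx)]
      split_ifs with hxt
      · have h4 : x.1 (q i) = x.1 t := hn2 t htA x hxt (hcon x hx) (q i) hclt
        rw [ff_apply, ff_apply, h4]
      · rfl
    have h5 : dist (φ (ff r (q i))) (φ (ff r t)) ≤
        dist (φ g) (φ (ff r (q i))) + dist (φ g) (φ (ff r t)) := dist_triangle_left _ _ _
    linarith
  refine Set.Countable.mono hsub ?_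
  refine Set.Countable.biUnion (Finset.countable_toSet _) fun z _ => ?_
  exact Set.Subsingleton.countable fun a ha b hb => jump_eq ha hb

end Pool.Agent.KS6_22.CU
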