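import Pool.Agent.KS6_22.CU.Weight

/-!
# Families of `σ`-compact spaces
-/

set_option autoImplicit false

namespace Pool.Agent.KS6_22.CU

open Set Topology TopologicalSpace Cardinal

section sigma

variable {L : Set ℝ} {W : Type} [TopologicalSpace W]

/-- the restriction of the functions to a subspace -/
def res (T : Cp (Cut L) → Cp W) (A : Set W) (f : Cp (Cut L)) : Cp A :=
  ⟨fun w => (T f).1 w.1, (T f).2.comp continuous_subtype_val⟩

theorem res_continuous {T : Cp (Cut L) → Cp W} (hT : Continuous T) (A : Set W) :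
    Continuous (res T A) := by
  refine Continuous.subtype_mk (continuous_pi fun w => ?_) _
  exact (Cp.continuous_eval w.1).comp hT

/-- the base of the subspace -/
def resB {ι : Type} (B : ι → Set W) (A : Set W) (i : ι) : Set A := Subtype.val ⁻¹' B i

theorem resB_basis {ι : Type} {B : ι → Set W} (hB : IsTopologicalBasis (range B)) (A : Set W) :
    IsTopologicalBasis (range (resB B A)) := by
  have h := hB.induced (Subtype.val : A → W)
  rw [← range_comp] at h
  exact h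

theorem exists_data_res [SigmaCompactSpace W] {T : Cp (Cut L) → Cp W} (hT : IsEmbedding T)
    (hQ : ∀ q : ℚ, (q : ℝ) ∈ L) (s : L) :
    ∃ (m n : ℕ) (q : ℚ), Data (res T (compactCovering W m)) n ⟨q, hQ q⟩ s := by
  classical
  obtain ⟨n, q, hrs, F, hF1, hF2⟩ := exists_data hT hQ s
  obtain ⟨m, hm⟩ : ∃ m, ∀ w ∈ F, w ∈ compactCovering W m := by
    have h1 : ∀ w : W, ∃ m, w ∈ compactCovering W m := by
      intro w
      have h2 : w ∈ ⋃ m, compactCovering W m := by
        rw [iUnion_compactCovering]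
        exact mem_univ w
      exact mem_iUnion.1 h2
    choose m hm using h1
    exact ⟨F.sup m, fun w hw => compactCovering_subset W (Finset.le_sup hw) (hm w)⟩
  refine ⟨m, n, q, hrs, F.subtype fun w => w ∈ compactCovering W m, fun t ht => ?_,
    fun t h1 h2 w hw => ?_⟩
  · obtain ⟨w, hw, hw2⟩ := hF1 t ht
    exact ⟨⟨w, hm w hw⟩, Finset.mem_subtype.2 hw, hw2⟩
  · exact hF2 t h1 h2 w.1 (Finset.mem_subtype.1 hw)

/-- the reals decoded from a sequence of big codes -/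
noncomputable def decodes [SigmaCompactSpace W] {ι : Type} (B : ι → Set W) (C : ℕ → BigCode ι)
    (p : ℕ × ((ℕ × (Finset ι × Bool)) ⊕ ℕ)) : ℝ :=
  decode (resB B (compactCovering W p.1)) (C p.1) p.2

theorem exists_bigCodes [SigmaCompactSpace W] {ι : Type} {B : ι → Set W}
    (hB : IsTopologicalBasis (range B)) (hQ : ∀ q : ℚ, (q : ℝ) ∈ L)
    {T : Cp (Cut L) → Cp W} (hT : IsEmbedding T) :
    ∃ C : ℕ → BigCode ι, L ⊆ range (decodes B C) := by
  classical
  have hcomp : ∀ m, CompactSpace (compactCovering W m) := fun m =>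
    isCompact_iff_compactSpace.1 (isCompact_compactCovering W m)
  have h1 : ∀ (m : ℕ) (p : ℕ × ℚ), ∃ c : Code ι,
      {t : L | Data (res T (compactCovering W m)) p.1 ⟨p.2, hQ p.2⟩ t ∧
        (t : ℝ) ∉ range (dec (resB B (compactCovering W m)) c)}.Countable := by
    intro m p
    exact exists_code (resB_basis hB _) (res_continuous hT.continuous _) _ _
  choose c hc using h1
  obtain ⟨e, he⟩ := exists_surjective_nat (ℕ × ℚ)
  have h2 : ∀ m : ℕ, ∃ g : ℕ → ℝ, ∀ t ∈ (⋃ p : ℕ × ℚ,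
      {t : L | Data (res T (compactCovering W m)) p.1 ⟨p.2, hQ p.2⟩ t ∧
        (t : ℝ) ∉ range (dec (resB B (compactCovering W m)) (c m p))}), (t : ℝ) ∈ range g := by
    intro m
    have h3 := countable_iUnion (hc m)
    rcases Set.eq_empty_or_nonempty (⋃ p : ℕ × ℚ,
      {t : L | Data (res T (compactCovering W m)) p.1 ⟨p.2, hQ p.2⟩ t ∧
        (t : ℝ) ∉ range (dec (resB B (compactCovering W m)) (c m p))}) with h | h
    · exact ⟨fun _ => 0, fun t ht => by rw [h] at ht; exact absurd ht (notMem_empty _)⟩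
    · obtain ⟨g, hg⟩ := h3.exists_eq_range h
      refine ⟨fun i => (g i : ℝ), fun t ht => ?_⟩
      rw [hg] at ht
      obtain ⟨i, rfl⟩ := ht
      exact ⟨i, rfl⟩
  choose g hg using h2
  refine ⟨fun m => (fun k => c m (e k), g m), fun x hx => ?_⟩
  obtain ⟨m, n, q, hd⟩ := exists_data_res hT hQ ⟨x, hx⟩
  by_cases h4 : x ∈ range (dec (resB B (compactCovering W m)) (c m (n, q)))
  · obtain ⟨k, hk⟩ := he (n, q)
    obtain ⟨y, hy⟩ := h4
    refine ⟨(m, Sum.inl (k, y)), ?_⟩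
    show dec (resB B (compactCovering W m)) (c m (e k)) y = x
    rw [hk, hy]
  · obtain ⟨i, hi⟩ := hg m ⟨x, hx⟩ (mem_iUnion.2 ⟨(n, q), hd, h4⟩)
    exact ⟨(m, Sum.inr i), hi⟩

/-- For a `σ`-compact space `W` of weight at most `𝔠` there are at most `𝔠` sets of reals of size
at most the weight of `W` which capture all sets `L` such that `C_p` of the space of cuts of `L`
embeds in `C_p W`. -/
theorem exists_capturing [SigmaCompactSpace W] (hW : weight W ≤ 𝔠) :
    ∃ A : Set (Set ℝ), #A ≤ 𝔠 ∧ (∀ a ∈ A, #a ≤ max (weight W) ℵ₀) ∧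
      ∀ L : Set ℝ, (∀ q : ℚ, (q : ℝ) ∈ L) → (∃ T : Cp (Cut L) → Cp W, IsEmbedding T) →
        ∃ a ∈ A, L ⊆ a := by
  classical
  obtain ⟨B, hB, hBW⟩ := exists_base W
  have hrange : range (Subtype.val : B → Set W) = B := Subtype.range_coe
  have hB' : IsTopologicalBasis (range (Subtype.val : B → Set W)) := by rw [hrange]; exact hB
  refine ⟨range fun C : ℕ → BigCode B => range (decodes (Subtype.val : B → Set W) C), ?_, ?_, ?_⟩
  · exact mk_range_le.trans (mk_seq_le (mk_bigCode_le (hBW.le.trans hW)))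
  · rintro _ ⟨C, rfl⟩
    refine mk_range_le.trans ?_
    have h1 : #((ℕ × (Finset B × Bool)) ⊕ ℕ) ≤ max (weight W) ℵ₀ :=
      mk_index_le (le_max_right _ _) (hBW.le.trans (le_max_left _ _))
    rw [mk_prod]
    simp only [Cardinal.lift_id, mk_nat]
    calc ℵ₀ * #((ℕ × (Finset B × Bool)) ⊕ ℕ) ≤ max (weight W) ℵ₀ * max (weight W) ℵ₀ :=
          mul_le_mul' (le_max_right _ _) h1
      _ = max (weight W) ℵ₀ := mul_eq_self (le_max_right _ _)
  · rintro L hL ⟨T, hT⟩
    obtain ⟨C, hC⟩ := exists_bigCodes hB' hL hT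
    exact ⟨_, ⟨C, rfl⟩, hC⟩

end sigma

/-! ### Small sets of reals which are not captured -/

/-- in ZFC: not captured by `𝔠` many sets of size less than `𝔠` -/
theorem exists_not_captured (A : Set (Set ℝ)) (hA : #A ≤ 𝔠) (hA2 : ∀ a ∈ A, #a < 𝔠) :
    ∃ L : Set ℝ, (∀ q : ℚ, (q : ℝ) ∈ L) ∧ #L ≤ (𝔠 : Cardinal.{0}).ord.cof ∧
      ∀ a ∈ A, ¬ L ⊆ a := by
  classical
  have hcof : ℵ₀ ≤ (𝔠 : Cardinal.{0}).ord.cof := by
    rw [Ordinal.aleph0_le_cof_iff, Ordinal.one_lt_cof_iff]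
    exact isSuccLimit_ord aleph0_le_continuum
  set O := (𝔠 : Cardinal.{0}).ord.ToType with hO
  have hOc : #O = 𝔠 := by rw [hO, mk_toType, card_ord]
  -- a cofinal set
  obtain ⟨s, hs, hs'⟩ := Order.exists_cof_eq O
  have hsc : #s = (𝔠 : Cardinal.{0}).ord.cof := by rw [hs', Ordinal.cof_toType]
  -- the index of a member of `A`
  obtain ⟨f⟩ : Nonempty (A ↪ O) := (Cardinal.le_def _ _).1 (hA.trans hOc.ge)
  -- the index of its size
  have hsize : ∀ a : A, ∃ o : O, #(a : Set ℝ) ≤ #(Set.Iic o) := by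
    intro a
    by_contra hcon
    push Not at hcon
    have h1 : ∀ o : O, #(Set.Iic o) < #(a : Set ℝ) := hcon
    have h2 : #O ≤ #(a : Set ℝ) := by
      have h3 : (#(a : Set ℝ)).ord < (𝔠 : Cardinal.{0}).ord := ord_lt_ord.2 (hA2 a a.2)
      have h3' : (#(a : Set ℝ)).ord < Ordinal.type (α := O) (· < ·) :=
        h3.trans_eq (Ordinal.type_toType _).symm
      set o := Ordinal.enum (α := O) (· < ·) ⟨(#(a : Set ℝ)).ord, h3'⟩ with ho
      exfalso
      have h4 := h1 o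
      have h5 : #(Set.Iio o) = #(a : Set ℝ) := by
        have h6 : Ordinal.typein (α := O) (· < ·) o = (#(a : Set ℝ)).ord := by
          rw [ho, Ordinal.typein_enum]
        have h7 : (Ordinal.typein (α := O) (· < ·) o).card = #(Set.Iio o) := rfl
        rw [← h7, h6, card_ord]
      have h8 : #(Set.Iio o) ≤ #(Set.Iic o) := mk_le_mk_of_subset Set.Iio_subset_Iic_self
      rw [h5] at h8
      exact absurd h4 (not_lt.2 h8)
    rw [hOc] at h2
    exact absurd (hA2 a a.2) (not_lt.2 h2)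
  choose z hz using hsize
  -- the union of the members of `A` below `o`
  have hU : ∀ o : O, #(⋃ a ∈ {a : A | f a ≤ o ∧ z a ≤ o}, (a : Set ℝ)) < 𝔠 := by
    intro o
    have hIic : #(Set.Iic o) < 𝔠 := by
      have h2 := Cardinal.mk_Iic_lt o
        (by rw [hOc]; exact (Ordinal.type_toType _).symm)
        (by rw [hOc]; exact aleph0_le_continuum)
      rwa [hOc] at h2
    have h1 : #{a : A | f a ≤ o ∧ z a ≤ o} ≤ #(Set.Iic o) := by
      refine mk_le_of_injective (f := fun a => (⟨f a.1, a.2.1⟩ : Set.Iic o)) ?_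
      intro a b hab
      exact Subtype.ext (f.injective (Subtype.mk.inj hab))
    have h3 : #(⋃ a : {a : A | f a ≤ o ∧ z a ≤ o}, ((a : A) : Set ℝ)) ≤
        #(Set.Iic o) * #(Set.Iic o) := by
      refine (mk_iUnion_le _).trans (mul_le_mul' h1 (ciSup_le' fun a => ?_))
      exact (hz a.1).trans (mk_le_mk_of_subset (Set.Iic_subset_Iic.2 a.2.2))
    have h4 : (⋃ a ∈ {a : A | f a ≤ o ∧ z a ≤ o}, ((a : A) : Set ℝ)) =
        ⋃ a : {a : A | f a ≤ o ∧ z a ≤ o}, ((a : A) : Set ℝ) := by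
      rw [Set.biUnion_eq_iUnion]
    rw [h4]
    exact h3.trans_lt (mul_lt_of_lt aleph0_le_continuum hIic hIic)
  have hx : ∀ o : O, ∃ x : ℝ, x ∉ (⋃ a ∈ {a : A | f a ≤ o ∧ z a ≤ o}, ((a : A) : Set ℝ)) := by
    intro o
    by_contra hcon
    push Not at hcon
    have h1 : (⋃ a ∈ {a : A | f a ≤ o ∧ z a ≤ o}, ((a : A) : Set ℝ)) = Set.univ :=
      Set.eq_univ_of_forall hcon
    have h2 := hU o
    rw [h1, mk_univ, mk_real] at h2
    exact lt_irrefl _ h2
  choose x hx using hx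
  refine ⟨(fun o : s => x o.1) '' Set.univ ∪ range ((↑) : ℚ → ℝ), fun q => Or.inr ⟨q, rfl⟩, ?_, ?_⟩
  · refine (mk_union_le _ _).trans ?_
    refine (add_le_add ((mk_image_le (f := fun o : s => x o.1) (s := Set.univ)))
      (mk_range_le (α := ℚ))).trans ?_
    rw [mk_univ, hsc, mk_denumerable ℚ]
    exact (Cardinal.add_le_max _ _).trans (max_le (max_le le_rfl hcof) hcof)
  · intro a ha hsub
    obtain ⟨o, ho, hoo⟩ := hs (max (f ⟨a, ha⟩) (z ⟨a, ha⟩))
    have h1 : x o ∈ a := hsub (Or.inl ⟨⟨o, ho⟩, mem_univ _, rfl⟩)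
    apply hx o
    refine mem_iUnion₂.2 ⟨⟨a, ha⟩, ⟨(le_max_left _ _).trans hoo, (le_max_right _ _).trans hoo⟩, h1⟩

/-- the same from `Phi` -/
theorem exists_not_captured_phi {K Λ I : Type} {c : Λ → I} (h : Phi K Λ I c) (hK : Infinite K)
    (A : Set (Set ℝ)) (hA : #A ≤ 𝔠) (hA2 : ∀ a ∈ A, #a ≤ #K) :
    ∃ L : Set ℝ, (∀ q : ℚ, (q : ℝ) ∈ L) ∧ #L ≤ max #I ℵ₀ ∧ ∀ a ∈ A, ¬ L ⊆ a := by
  classical
  obtain ⟨hΛ, hi⟩ := h
  rcases A.eq_empty_or_nonempty with rfl | hne
  · refine ⟨range ((↑) : ℚ → ℝ), fun q => ⟨q, rfl⟩, ?_, fun a ha => absurd ha (notMem_empty a)⟩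
    refine (mk_range_le (α := ℚ)).trans ?_
    rw [mk_denumerable ℚ]
    exact le_max_right _ _
  have : Nonempty A := hne.to_subtype
  obtain ⟨E, hE⟩ := exists_surjective_of_le (hA.trans (contLe_iff.1 hΛ))
  have hs : ∀ i : I, ∃ x : ℝ, ∀ l : Λ, c l = i → x ∉ (E l : Set ℝ) := by
    intro i
    by_contra hcon
    push Not at hcon
    apply hi i
    rw [contLe_iff]
    have h1 : (Set.univ : Set ℝ) = ⋃ l : {l // c l = i}, (E l.1 : Set ℝ) := by
      refine (Set.eq_univ_of_forall fun x => ?_).symm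
      obtain ⟨l, hl, hx⟩ := hcon x
      exact mem_iUnion.2 ⟨⟨l, hl⟩, hx⟩
    have h2 : #(Set.univ : Set ℝ) ≤ #{l // c l = i} * #K := by
      rw [h1]
      exact (mk_iUnion_le _).trans (mul_le_mul' le_rfl (ciSup_le' fun l => hA2 _ (E l.1).2))
    rw [mk_univ, mk_real] at h2
    rw [mk_prod]
    simp only [Cardinal.lift_id]
    rwa [mul_comm]
  choose s hs using hs
  refine ⟨range s ∪ range ((↑) : ℚ → ℝ), fun q => Or.inr ⟨q, rfl⟩, ?_, ?_⟩
  · refine (mk_union_le _ _).trans ((add_le_add mk_range_le (mk_range_le (α := ℚ))).trans ?_)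
    rw [mk_denumerable ℚ]
    refine (Cardinal.add_le_max _ _).trans ?_
    simp
  · intro a ha hsub
    obtain ⟨l, hl⟩ := hE ⟨a, ha⟩
    apply hs (c l) l rfl
    rw [hl]
    exact hsub (Or.inl ⟨c l, rfl⟩)

end Pool.Agent.KS6_22.CU
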